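import Pool.Agent.H174.GP.StG

/-! # Project GP (helper174), part couple (helper686); adapted from `Pool.Agent.H86.GP174.coarse` -/

open MeasureTheory ProbabilityTheory Finset

namespace Pool.Agent.H686.GP174

open Pool.Agent.H174.GP

theorem S_zero (ω : ℕ → ℝ) : S ω 0 = 0 := by
  unfold S; simp

theorem tau_zero (g : ℕ → ℕ) : tau g 0 = 0 := by
  unfold tau; simp

/-- The partial sums of the coarse sequence. -/
theorem S_Z (K : ℕ) (hK : 1 ≤ K) (p : (ℕ → ℝ) × (ℕ → ℕ)) (i : ℕ) :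
    Real.sqrt K * S (fun i => Z K p i) i = S p.1 (tau p.2 i) := by
  have hs : 0 < Real.sqrt K := Real.sqrt_pos.mpr (by exact_mod_cast hK)
  induction i with
  | zero => rw [S_zero, tau_zero, S_zero]; ring
  | succ m ih =>
    have h : S (fun i => Z K p i) (m + 1) = S (fun i => Z K p i) m + Z K p (m + 1) := by
      unfold S
      rw [Finset.sum_Icc_succ_top (by omega)]
    rw [h, mul_add, ih]
    unfold Z
    rw [if_neg (by omega), Nat.add_sub_cancel]
    field_simp
    ring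

theorem gp_couple (h4 : S_tautail) (h3 : S_Stail) : S_couple := by
  intro K n A hK hn hA hl
  set l : ℝ := 2 * (A + 1) * Real.log n with hldef
  have hK' : (1 : ℝ) ≤ K := by exact_mod_cast hK
  have hKs : 0 < Real.sqrt K := Real.sqrt_pos.mpr (by linarith)
  have hKs2 : Real.sqrt K * Real.sqrt K = K := Real.mul_self_sqrt (by linarith)
  let w : ℕ → ℕ := fun i => ⌈(K : ℝ) * Real.sqrt i * l⌉₊
  let a : ℕ → ℕ := fun i => K * i - w i
  let N : ℕ → ℕ := fun i => 2 * w i
  let t : ℕ → ℝ := fun i => Real.sqrt K * (8 * l ^ (3 / 2 : ℝ) * (i : ℝ) ^ (1 / 4 : ℝ)) / 2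
  let Ba : ℕ → Set (ℕ → ℕ) := fun i => {g | K * Real.sqrt i * l ≤ |(tau g i : ℝ) - K * i|}
  let Bb : ℕ → Set (ℕ → ℝ) := fun i => {ω | ∃ j ∈ Finset.Icc (a i) (a i + N i), t i ≤ |S ω j - S ω (a i)|}
  -- the inclusion
  have hsub : {p : (ℕ → ℝ) × (ℕ → ℕ) | ∃ i ∈ Finset.Icc 1 n,
      Real.sqrt K * (8 * l ^ (3 / 2 : ℝ) * (i : ℝ) ^ (1 / 4 : ℝ)) <
        |S p.1 (K * i) - Real.sqrt K * S (fun j => Z K p j) i|} ⊆
      ⋃ i ∈ Finset.Icc 1 n,
        (((Set.univ : Set (ℕ → ℝ)) ×ˢ Ba i) ∪ (Bb i ×ˢ (Set.univ : Set (ℕ → ℕ)))) := by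
    rintro p ⟨i, hi, hp⟩
    by_contra hcon
    simp only [Set.mem_union, Set.mem_prod, Set.mem_univ, and_true, true_and, Set.mem_iUnion,
      not_or, not_exists] at hcon
    obtain ⟨hA1, hB1⟩ := hcon i hi
    have hi1 : 1 ≤ i := (Finset.mem_Icc.mp hi).1
    have hA2 : |(tau p.2 i : ℝ) - K * i| < K * Real.sqrt i * l := not_le.mp hA1
    have hB2 : ∀ j ∈ Finset.Icc (a i) (a i + N i), |S p.1 j - S p.1 (a i)| < t i := by
      intro j hj
      by_contra hcc
      exact hB1 ⟨j, hj, not_lt.mp hcc⟩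
    have hw : (K : ℝ) * Real.sqrt i * l ≤ w i := Nat.le_ceil _
    rw [abs_lt] at hA2
    have ht1 : tau p.2 i ∈ Finset.Icc (a i) (a i + N i) := by
      rw [Finset.mem_Icc]
      have e1 : ((K * i : ℕ) : ℝ) < ((tau p.2 i + w i : ℕ) : ℝ) := by push_cast; linarith
      have e2 : ((tau p.2 i : ℕ) : ℝ) < ((K * i + w i : ℕ) : ℝ) := by push_cast; linarith
      have e1' : K * i < tau p.2 i + w i := by exact_mod_cast e1
      have e2' : tau p.2 i < K * i + w i := by exact_mod_cast e2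
      simp only [a, N]
      omega
    have hj3 : K * i ∈ Finset.Icc (a i) (a i + N i) := by
      rw [Finset.mem_Icc]
      simp only [a, N]
      omega
    rw [S_Z K hK] at hp
    have b1 := hB2 _ ht1
    have b2 := hB2 _ hj3
    have e : t i + t i = Real.sqrt K * (8 * l ^ (3 / 2 : ℝ) * (i : ℝ) ^ (1 / 4 : ℝ)) := by
      simp only [t]; ring
    rw [← e] at hp
    rw [abs_lt] at b1 b2
    have h5 : |S p.1 (K * i) - S p.1 (tau p.2 i)| ≤ t i + t i := by
      rw [abs_le]
      constructor <;> linarith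
    linarith
  -- the probabilities
  have hl0 : 0 ≤ l := by linarith
  have pa : ∀ i ∈ Finset.Icc 1 n, (PP.prod (GG K)).real ((Set.univ : Set (ℕ → ℝ)) ×ˢ Ba i) ≤
      2 * Real.exp (1 / 4) * Real.exp (-(l / 2)) := by
    intro i hi
    have : (PP.prod (GG K)).real ((Set.univ : Set (ℕ → ℝ)) ×ˢ Ba i) = (GG K).real (Ba i) := by
      rw [measureReal_def, Measure.prod_prod, measure_univ, one_mul, measureReal_def]
    rw [this]
    exact h4 K i l hK (Finset.mem_Icc.mp hi).1 hl0
  have pb : ∀ i ∈ Finset.Icc 1 n, (PP.prod (GG K)).real (Bb i ×ˢ (Set.univ : Set (ℕ → ℕ))) ≤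
      4 * Real.exp (1 / 2) * Real.exp (-(l / 2)) := by
    intro i hi
    have : (PP.prod (GG K)).real (Bb i ×ˢ (Set.univ : Set (ℕ → ℕ))) = PP.real (Bb i) := by
      rw [measureReal_def, Measure.prod_prod, measure_univ, mul_one, measureReal_def]
    rw [this]
    have hi1 : 1 ≤ i := (Finset.mem_Icc.mp hi).1
    have hi1' : (1 : ℝ) ≤ i := by exact_mod_cast hi1
    have hsi : (1 : ℝ) ≤ Real.sqrt i := by
      rw [Real.one_le_sqrt]; exact_mod_cast hi1
    have h5 : (1 : ℝ) ≤ K * Real.sqrt i * l := by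
      have := one_le_mul_of_one_le_of_one_le (one_le_mul_of_one_le_of_one_le hK' hsi) hl
      exact this
    have hw0 : (w i : ℝ) < K * Real.sqrt i * l + 1 := Nat.ceil_lt_add_one (by linarith)
    have hw1 : 1 ≤ w i := by
      have : (1 : ℝ) ≤ w i := le_trans h5 (Nat.le_ceil _)
      exact_mod_cast this
    have hN1 : 1 ≤ N i := by simp only [N]; omega
    have hN2 : (N i : ℝ) ≤ 4 * (K * Real.sqrt i * l) := by
      simp only [N]; push_cast; linarith
    have ht0 : 0 ≤ t i := by simp only [t]; positivity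
    refine le_trans (h3 (a i) (N i) (t i) hN1 ht0) ?_
    have hq : 0 < Real.sqrt (N i) := Real.sqrt_pos.mpr (by exact_mod_cast hN1)
    -- the main estimate
    set r : ℝ := (i : ℝ) ^ (1 / 4 : ℝ) with hr
    have hr0 : 0 ≤ r := by positivity
    have hr2 : r * r = Real.sqrt i := by
      rw [hr, ← Real.rpow_add (by linarith), Real.sqrt_eq_rpow]; norm_num
    have hl32 : l ^ (3 / 2 : ℝ) = l * Real.sqrt l := by
      rw [Real.sqrt_eq_rpow, ← Real.rpow_one_add' hl0 (by norm_num)]; norm_num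
    have hsl : Real.sqrt l * Real.sqrt l = l := Real.mul_self_sqrt hl0
    have hsN : Real.sqrt (N i) ≤ 2 * Real.sqrt K * r * Real.sqrt l := by
      rw [Real.sqrt_le_left (by positivity)]
      refine le_trans hN2 (le_of_eq ?_)
      rw [← hr2]
      have : (2 * Real.sqrt K * r * Real.sqrt l) ^ 2 = 4 * ((Real.sqrt K * Real.sqrt K) * (r * r) * (Real.sqrt l * Real.sqrt l)) := by ring
      rw [this, hKs2, hsl]
    have hmain : l ≤ t i / (2 * Real.sqrt (N i)) := by
      rw [le_div_iff₀ (by positivity)]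
      have h7 : t i = 4 * l * (Real.sqrt K * r * Real.sqrt l) := by
        simp only [t]; rw [hl32]; ring
      rw [h7]
      have := mul_le_mul_of_nonneg_left hsN hl0
      nlinarith
    have : Real.exp (-(t i / (2 * Real.sqrt (N i)))) ≤ Real.exp (-(l / 2)) := by
      apply Real.exp_le_exp.mpr
      linarith
    gcongr
  -- assembly
  refine le_trans (measureReal_mono hsub (measure_ne_top _ _)) ?_
  refine le_trans (measureReal_biUnion_finset_le _ _) ?_
  have hterm : ∀ i ∈ Finset.Icc 1 n, (PP.prod (GG K)).real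
      (((Set.univ : Set (ℕ → ℝ)) ×ˢ Ba i) ∪ (Bb i ×ˢ (Set.univ : Set (ℕ → ℕ)))) ≤
        40 * Real.exp (-(l / 2)) := by
    intro i hi
    refine le_trans (measureReal_union_le _ _) ?_
    refine le_trans (add_le_add (pa i hi) (pb i hi)) ?_
    have e4 : Real.exp (1 / 4) ≤ 3 := by
      have : Real.exp (1 / 4) ≤ Real.exp 1 := Real.exp_le_exp.mpr (by norm_num)
      have := Real.exp_one_lt_d9
      linarith
    have e2 : Real.exp (1 / 2) ≤ 3 := by
      have : Real.exp (1 / 2) ≤ Real.exp 1 := Real.exp_le_exp.mpr (by norm_num)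
      have := Real.exp_one_lt_d9
      linarith
    have := Real.exp_pos (-(l / 2))
    nlinarith
  refine le_trans (Finset.sum_le_sum hterm) ?_
  rw [Finset.sum_const, Nat.card_Icc, Nat.add_sub_cancel, nsmul_eq_mul]
  have hn0 : (0 : ℝ) < n := by exact_mod_cast (by omega : 0 < n)
  have hexp : Real.exp (-(l / 2)) = (n : ℝ) ^ (-(A + 1)) := by
    rw [Real.rpow_def_of_pos hn0]
    congr 1
    rw [hldef]; ring
  rw [hexp]
  have : (n : ℝ) ^ (-A) = n * (n : ℝ) ^ (-(A + 1)) := by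
    nth_rewrite 2 [← Real.rpow_one (n : ℝ)]
    rw [← Real.rpow_add hn0]
    congr 1; ring
  rw [this]
  apply le_of_eq
  ring

end Pool.Agent.H686.GP174
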